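import Pool.Agent.W646.CI.Stm

/-!
# CI-GROW: points of regular growth
-/

set_option autoImplicit false

namespace Pool.Agent.W214.CI

open Pool.Agent.W646.CI
open Filter Topology Set

/-- `lam * HH D lam` -/
noncomputable def Yf (D lam : ℝ) : ℝ := 2 * (Real.log (D * lam ^ 2) + 1)

theorem hh_mul (D : ℝ) {lam : ℝ} (h : 0 < lam) : lam * HH D lam = Yf D lam := by
  unfold HH Yf
  field_simp

theorem yf_split {D lam : ℝ} (hD : 0 < D) (h : 0 < lam) :
    Yf D lam = 2 * Real.log D + 4 * Real.log lam + 2 := by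
  unfold Yf
  rw [Real.log_mul hD.ne' (by positivity), Real.log_pow]
  push_cast
  ring

theorem hh_le {D lam : ℝ} (hD : 1 ≤ D) (h : 1 ≤ lam) : HH D lam ≤ 2 * Real.log D + 6 := by
  have hl : 0 < lam := by linarith
  have h1 := hh_mul D hl
  rw [yf_split (by linarith) hl] at h1
  have h2 : Real.log lam ≤ lam := (Real.log_le_sub_one_of_pos hl).trans (by linarith)
  have h3 : 0 ≤ Real.log D := Real.log_nonneg hD
  have h4 : lam * HH D lam ≤ lam * (2 * Real.log D + 6) := by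
    rw [h1]
    nlinarith
  exact le_of_mul_le_mul_left h4 hl

theorem log_sq {u : ℝ} (hu : 1 ≤ u) : Real.log u ^ 2 ≤ 4 * u := by
  have h0 : 0 < Real.sqrt u := Real.sqrt_pos.2 (by linarith)
  have h1 : Real.log u = 2 * Real.log (Real.sqrt u) := by
    rw [Real.log_sqrt (by linarith)]
    ring
  have h2 : Real.log (Real.sqrt u) ≤ Real.sqrt u :=
    (Real.log_le_sub_one_of_pos h0).trans (by linarith)
  have h3 : 0 ≤ Real.log u := Real.log_nonneg hu
  have h4 : Real.log u ≤ 2 * Real.sqrt u := by linarith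
  calc Real.log u ^ 2 ≤ (2 * Real.sqrt u) ^ 2 := by gcongr
    _ = 4 * u := by rw [mul_pow, Real.sq_sqrt (by linarith)]; norm_num

theorem inv_pow_le {v : ℝ} (q : ℕ) (hv : v < 1) (hw : (q : ℝ) * v ≤ 1 / 2) :
    1 / (1 - v) ^ q ≤ 1 + q * v + 2 * (q * v) ^ 2 := by
  have h1 : 1 + (q : ℝ) * (-v) ≤ (1 + (-v)) ^ q := one_add_mul_le_pow (by linarith) q
  have h2 : 0 < 1 - (q : ℝ) * v := by linarith
  have h3 : 1 - (q : ℝ) * v ≤ (1 - v) ^ q := by
    have : (1 : ℝ) + (-v) = 1 - v := by ring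
    rw [this] at h1
    linarith
  have h4 : 0 < (1 - v) ^ q := pow_pos (by linarith) q
  rw [div_le_iff₀ h4]
  set w := (q : ℝ) * v with hwdef
  have h5 : 0 ≤ 1 + w + 2 * w ^ 2 := by nlinarith [sq_nonneg (w + 1 / 2)]
  calc (1 : ℝ) ≤ (1 + w + 2 * w ^ 2) * (1 - w) := by nlinarith [sq_nonneg w]
    _ ≤ (1 + w + 2 * w ^ 2) * (1 - v) ^ q := by gcongr

theorem sq_aux (a l u : ℝ) (ha : 0 ≤ a) (hl : 0 ≤ l) (hu : 1 ≤ u) (h : l ^ 2 ≤ 4 * u) (x : ℝ)
    (hx0 : 0 ≤ x) (hx : x ≤ a + 8 * l) : x ^ 2 ≤ (2 * a ^ 2 + 512) * u := by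
  have h1 : x ^ 2 ≤ (a + 8 * l) ^ 2 := by gcongr
  have h2 : (a + 8 * l) ^ 2 ≤ 2 * a ^ 2 + 128 * l ^ 2 := by nlinarith [sq_nonneg (a - 8 * l)]
  have h3 : 2 * a ^ 2 ≤ 2 * a ^ 2 * u := le_mul_of_one_le_right (by positivity) hu
  linarith

/-- inequalities for the parameters -/
theorem pars (q : ℕ) (lam0 D κ P1 y : ℝ) (hq : 1 ≤ q) (hlam0 : 1 < lam0) (hD : 1 ≤ D)
    (h1 : lam0 ≤ P1) (h2 : 8 ≤ P1) (h4 : (2 * Yf D lam0 ^ 2 + 512) * 8 ≤ κ * P1)
    (h5 : (2 * Yf D lam0 ^ 2 + 512) * 4 ≤ P1) (hypos : 0 < y) (hyle : y ≤ 1) (P lam : ℝ)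
    (hP : P = P1 / y ^ q) (hlam : lam = lam0 / y ^ (q + 1)) :
    P1 ≤ P ∧ lam0 ≤ lam ∧ Yf D lam ≤ Yf D lam0 + (P - P1) ∧ 2 ≤ Yf D lam ∧
      Yf D lam ^ 2 * 4 ≤ P ∧ Yf D lam ^ 2 * 8 ≤ κ * P ∧ lam ^ q ≤ P ^ (q + 1) := by
  have hD0 : 0 < D := by linarith
  have hl0 : 0 < lam0 := by linarith
  have hlogD : 0 ≤ Real.log D := Real.log_nonneg hD
  have hqr : (1 : ℝ) ≤ q := by exact_mod_cast hq
  have hY0 : 0 ≤ Yf D lam0 := by
    rw [yf_split hD0 hl0]
    have := Real.log_pos hlam0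
    positivity
  have hP1pos : 0 < P1 := by linarith
  have hyq : 0 < y ^ q := pow_pos hypos q
  have hyq1 : y ^ q ≤ 1 := pow_le_one₀ hypos.le hyle
  have hyq2 : 0 < y ^ (q + 1) := pow_pos hypos _
  have hyq3 : y ^ (q + 1) ≤ 1 := pow_le_one₀ hypos.le hyle
  have hPP : P1 ≤ P := by
    rw [hP, le_div_iff₀ hyq]
    exact mul_le_of_le_one_right hP1pos.le hyq1
  have hPpos : 0 < P := by linarith
  have hll : lam0 ≤ lam := by
    rw [hlam, le_div_iff₀ hyq2]
    exact mul_le_of_le_one_right hl0.le hyq3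
  have hlpos : 0 < lam := by linarith
  obtain ⟨u, hu⟩ : ∃ u, u = 1 / y ^ q := ⟨_, rfl⟩
  have hu1 : 1 ≤ u := by
    rw [hu, le_div_iff₀ hyq]
    linarith
  have hPu : P = P1 * u := by
    rw [hP, hu]
    ring
  have hell : 0 ≤ -Real.log y := by
    have := Real.log_nonpos hypos.le hyle
    linarith
  have hlogu : Real.log u = q * (-Real.log y) := by
    rw [hu, one_div, Real.log_inv, Real.log_pow]
    ring
  have hY : Yf D lam = Yf D lam0 + 4 * (q + 1) * (-Real.log y) := by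
    rw [yf_split hD0 hlpos, yf_split hD0 hl0, hlam, Real.log_div hl0.ne' hyq2.ne', Real.log_pow]
    push_cast
    ring
  have hY2 : Yf D lam ≤ Yf D lam0 + 8 * Real.log u := by
    rw [hY, hlogu]
    have : (1 : ℝ) * (-Real.log y) ≤ q * (-Real.log y) := by gcongr
    linarith
  have hlogu0 : 0 ≤ Real.log u := Real.log_nonneg hu1
  have hYY : Yf D lam0 ≤ Yf D lam := by
    rw [hY]
    have : 0 ≤ 4 * ((q : ℝ) + 1) * (-Real.log y) := by positivity
    linarith
  have hYi : Yf D lam ≤ Yf D lam0 + (P - P1) := by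
    have e1 : Real.log u ≤ u - 1 := Real.log_le_sub_one_of_pos (by linarith)
    have e2 : 8 * (u - 1) ≤ P1 * (u - 1) := by
      have : 0 ≤ u - 1 := by linarith
      gcongr
    rw [hPu]
    linarith
  have hYii : Yf D lam ^ 2 ≤ (2 * Yf D lam0 ^ 2 + 512) * u :=
    sq_aux _ _ _ hY0 hlogu0 hu1 (log_sq hu1) _ (hY0.trans hYY) hY2
  have hYge : 2 ≤ Yf D lam := by
    rw [yf_split hD0 hlpos]
    have : 0 ≤ Real.log lam := Real.log_nonneg (by linarith)
    linarith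
  refine ⟨hPP, hll, hYi, hYge, ?_, ?_, ?_⟩
  · rw [hPu]
    calc Yf D lam ^ 2 * 4 ≤ ((2 * Yf D lam0 ^ 2 + 512) * u) * 4 := by gcongr
      _ = ((2 * Yf D lam0 ^ 2 + 512) * 4) * u := by ring
      _ ≤ P1 * u := by gcongr
  · rw [hPu]
    calc Yf D lam ^ 2 * 8 ≤ ((2 * Yf D lam0 ^ 2 + 512) * u) * 8 := by gcongr
      _ = ((2 * Yf D lam0 ^ 2 + 512) * 8) * u := by ring
      _ ≤ (κ * P1) * u := by gcongr
      _ = κ * (P1 * u) := by ring
  · rw [hlam, hP, div_pow, div_pow, ← pow_mul, ← pow_mul, mul_comm (q + 1) q]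
    refine div_le_div_of_nonneg_right ?_ (by positivity)
    calc lam0 ^ q ≤ P1 ^ q := by gcongr
      _ ≤ P1 ^ (q + 1) := pow_le_pow_right₀ (by linarith) (by omega)

/-- the comparison function near the touching point -/
theorem inside (q : ℕ) (hq : 1 ≤ q) (b P1 lam0 y P lam D1 s Y κ : ℝ) (hP1 : 0 < P1)
    (hlam0 : 0 < lam0) (hy : 0 < y) (hP : P = P1 / y ^ q) (hlam : lam = lam0 / y ^ (q + 1))
    (hD1 : D1 = q * P1 / lam0) (hls : lam * |s| ≤ Y) (hY2 : 2 ≤ Y) (hA : Y ^ 2 * 4 ≤ P)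
    (hB : Y ^ 2 * 8 ≤ κ * P) (hb : b ≤ b + D1 * (1 - y) + s) :
    ∃ z, 0 < z ∧ z ≤ 1 ∧ b + D1 * (1 - z) = b + D1 * (1 - y) + s ∧
      P1 / z ^ q ≤ P + lam * s + κ / 4 := by
  have hqr : (1 : ℝ) ≤ q := by exact_mod_cast hq
  have hq0 : (0 : ℝ) < q := by linarith
  have hyq : 0 < y ^ q := pow_pos hy q
  have hyq2 : 0 < y ^ (q + 1) := pow_pos hy _
  have hPpos : 0 < P := by rw [hP]; positivity
  have hlpos : 0 < lam := by rw [hlam]; positivity
  have hD1pos : 0 < D1 := by rw [hD1]; positivity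
  obtain ⟨v, hv⟩ : ∃ v, v = s / (D1 * y) := ⟨_, rfl⟩
  have hDy : 0 < D1 * y := by positivity
  have hqv : (q : ℝ) * v = lam * s / P := by
    rw [hv, hD1, hlam, hP, pow_succ]
    field_simp
  have hw : |(q : ℝ) * v| ≤ 1 / 4 := by
    rw [hqv, abs_div, abs_mul, abs_of_pos hlpos, abs_of_pos hPpos, div_le_iff₀ hPpos]
    have : Y ≤ Y ^ 2 := by nlinarith
    linarith
  have hw' := abs_le.1 hw
  have hv1 : v < 1 := by
    by_contra hc
    push Not at hc
    have : (1 : ℝ) * 1 ≤ q * v := by gcongr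
    linarith
  have hzt : b + D1 * (1 - y * (1 - v)) = b + D1 * (1 - y) + s := by
    rw [hv]
    field_simp
    ring
  refine ⟨y * (1 - v), mul_pos hy (by linarith), ?_, hzt, ?_⟩
  · by_contra hc
    push Not at hc
    have : D1 * (1 - y * (1 - v)) < 0 := mul_neg_of_pos_of_neg hD1pos (by linarith)
    linarith
  · have e2 : P1 / (y * (1 - v)) ^ q = P * (1 / (1 - v) ^ q) := by
      rw [mul_pow, hP]
      field_simp
    have e3 := inv_pow_le q hv1 (by linarith)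
    have e4 : P1 / (y * (1 - v)) ^ q ≤ P * (1 + q * v + 2 * (q * v) ^ 2) := by
      rw [e2]
      gcongr
    have e5 : P * (1 + q * v + 2 * (q * v) ^ 2) = P + lam * s + 2 * (lam * s) ^ 2 / P := by
      rw [hqv]
      field_simp
    have e6 : 2 * (lam * s) ^ 2 / P ≤ κ / 4 := by
      rw [div_le_iff₀ hPpos]
      have : (lam * s) ^ 2 ≤ Y ^ 2 := by
        rw [← sq_abs (lam * s), abs_mul, abs_of_pos hlpos]
        gcongr
      linarith
    linarith

theorem touch (L : ℝ → ℝ) (τ0 : ℝ) (hmono : MonotoneOn L (Ici τ0)) (q : ℕ) (lam0 D κ τ1 : ℝ)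
    (hq : 1 ≤ q) (hlam0 : 1 < lam0) (hD : 1 ≤ D) (hκ : 0 < κ) (b : ℝ)
    (hb0 : τ0 + (2 * Real.log D + 6) ≤ b) (hb1 : τ1 ≤ b) (h1 : lam0 ≤ L b) (h2 : 8 ≤ L b)
    (h3 : τ1 ≤ L b) (h4 : (2 * Yf D lam0 ^ 2 + 512) * 8 ≤ κ * L b)
    (h5 : (2 * Yf D lam0 ^ 2 + 512) * 4 ≤ L b) (y0 : ℝ) (hy0 : 0 < y0) (hy1 : y0 ≤ 1)
    (h : L b / y0 ^ q + Yf D lam0 + κ ≤ L (b + q * L b / lam0 * (1 - y0))) :
    ∃ τ ≥ τ1, τ1 ≤ L τ ∧ ∃ lam ≥ lam0, lam ^ q ≤ L τ ^ (q + 1) ∧
      ∀ s : ℝ, |s| ≤ HH D lam → L (τ + s) ≤ L τ + lam * s + κ := by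
  have hD0 : 0 < D := by linarith
  have hl0 : 0 < lam0 := by linarith
  have hlogD : 0 ≤ Real.log D := Real.log_nonneg hD
  have hτb : τ0 ≤ b := by linarith
  have hY0 : 0 ≤ Yf D lam0 := by
    rw [yf_split hD0 hl0]
    have := Real.log_pos hlam0
    positivity
  obtain ⟨P1, hP1⟩ : ∃ P1, P1 = L b := ⟨_, rfl⟩
  rw [← hP1] at h1 h2 h3 h4 h5 h
  have hP1pos : 0 < P1 := by linarith
  obtain ⟨D1, hD1⟩ : ∃ D1 : ℝ, D1 = q * P1 / lam0 := ⟨_, rfl⟩
  rw [← hD1] at h
  have hq0 : (0 : ℝ) < q := by exact_mod_cast hq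
  have hD1pos : 0 < D1 := by rw [hD1]; positivity
  obtain ⟨G, hG⟩ : ∃ G : ℝ → ℝ, ∀ y, G y = L (b + D1 * (1 - y)) - P1 / y ^ q :=
    ⟨fun y => L (b + D1 * (1 - y)) - P1 / y ^ q, fun y => rfl⟩
  have hGb : ∀ y ∈ Ioc (0 : ℝ) 1, G y ≤ L (b + D1) := by
    intro y hy
    have hy1 := hy.1
    have e0 : 0 ≤ D1 * (1 - y) := mul_nonneg hD1pos.le (by linarith [hy.2])
    have e00 : D1 * (1 - y) ≤ D1 * 1 := by
      gcongr
      linarith
    have e1 : L (b + D1 * (1 - y)) ≤ L (b + D1) := by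
      refine hmono ?_ ?_ (by linarith)
      · show τ0 ≤ _
        linarith
      · show τ0 ≤ _
        linarith
    have e2 : 0 ≤ P1 / y ^ q := by positivity
    rw [hG]
    linarith
  have hbdd : BddAbove (G '' Ioc 0 1) := ⟨L (b + D1), by
    rintro _ ⟨y, hy, rfl⟩
    exact hGb y hy⟩
  have hne : (G '' Ioc 0 1).Nonempty := ⟨G y0, y0, ⟨hy0, hy1⟩, rfl⟩
  obtain ⟨_, ⟨y, hy, rfl⟩, hyS⟩ := exists_lt_of_lt_csSup hne
    (show sSup (G '' Ioc 0 1) - κ / 4 < sSup (G '' Ioc 0 1) by linarith)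
  have hGle : ∀ z ∈ Ioc (0 : ℝ) 1, G z ≤ G y + κ / 4 := by
    intro z hz
    have := le_csSup hbdd ⟨z, hz, rfl⟩
    linarith
  have hGy : Yf D lam0 ≤ G y := by
    have e1 := hGle y0 ⟨hy0, hy1⟩
    have e2 : Yf D lam0 + κ ≤ G y0 := by
      rw [hG]
      linarith
    linarith
  obtain ⟨hypos, hyle⟩ := hy
  obtain ⟨τ, hτ⟩ : ∃ τ, τ = b + D1 * (1 - y) := ⟨_, rfl⟩
  obtain ⟨P, hP⟩ : ∃ P, P = P1 / y ^ q := ⟨_, rfl⟩
  obtain ⟨lam, hlam⟩ : ∃ lam, lam = lam0 / y ^ (q + 1) := ⟨_, rfl⟩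
  obtain ⟨hPP, hll, hYi, hYge, hA, hB, hpow⟩ := pars q lam0 D κ P1 y hq hlam0 hD h1 h2 h4 h5
    hypos hyle P lam hP hlam
  have hPpos : 0 < P := by linarith
  have hlpos : 0 < lam := by linarith
  have hLτ : L τ = P + G y := by
    rw [hG, hτ, hP]
    ring
  have hbτ : b ≤ τ := by
    have : 0 ≤ D1 * (1 - y) := mul_nonneg hD1pos.le (by linarith)
    linarith
  have hPL : P ≤ L τ := by linarith
  refine ⟨τ, hb1.trans hbτ, by linarith, lam, hll, ?_, ?_⟩
  · exact hpow.trans (by gcongr)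
  · intro s hs
    have hls : lam * |s| ≤ Yf D lam := by
      rw [← hh_mul D hlpos]
      gcongr
    have hHH : HH D lam ≤ 2 * Real.log D + 6 := hh_le hD (by linarith)
    have hsb := abs_le.1 hs
    by_cases hcase : b ≤ τ + s
    · rw [hτ] at hcase
      obtain ⟨z, hz0, hz1, hzt, hzP⟩ := inside q hq b P1 lam0 y P lam D1 s (Yf D lam) κ hP1pos hl0
        hypos hP hlam hD1 hls hYge hA hB hcase
      have hGz := hGle z ⟨hz0, hz1⟩
      rw [hG z, hzt, ← hτ] at hGz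
      rw [hLτ]
      linarith
    · push Not at hcase
      have e1 : L (τ + s) ≤ L b := by
        refine hmono ?_ hτb hcase.le
        show τ0 ≤ τ + s
        linarith [hsb.1]
      have e2 : -(Yf D lam) ≤ lam * s := by
        have h6 : -|s| ≤ s := neg_abs_le s
        have h7 : lam * (-|s|) ≤ lam * s := by gcongr
        linarith
      rw [hLτ]
      linarith

theorem grow : S_GROW := by
  intro L τ0 hmono hfreq q lam0 D κ τ1 hq hlam0 hD hκ
  have hl0 : 0 < lam0 := by linarith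
  have hD0 : 0 < D := by linarith
  have hqr : (1 : ℝ) ≤ q := by exact_mod_cast hq
  have hlogD : 0 ≤ Real.log D := Real.log_nonneg hD
  have hY0 : 0 ≤ Yf D lam0 := by
    rw [yf_split hD0 hl0]
    have := Real.log_pos hlam0
    positivity
  by_contra hcon
  -- thresholds
  obtain ⟨C, hC1, hC2, hC3, hC4, hC5, hC6, hC7⟩ : ∃ C : ℝ, lam0 ≤ C ∧ 8 ≤ C ∧ τ1 ≤ C ∧
      (2 * Yf D lam0 ^ 2 + 512) * 8 ≤ κ * C ∧ (2 * Yf D lam0 ^ 2 + 512) * 4 ≤ C ∧
      Yf D lam0 + κ ≤ C ∧ 0 < C := by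
    refine ⟨max lam0 (max 8 (max τ1 (max ((2 * Yf D lam0 ^ 2 + 512) * 8 / κ)
      (max ((2 * Yf D lam0 ^ 2 + 512) * 4) (Yf D lam0 + κ))))), ?_, ?_, ?_, ?_, ?_, ?_, ?_⟩
    · exact le_max_left _ _
    · exact (le_max_left _ _).trans (le_max_right _ _)
    · exact ((le_max_left _ _).trans (le_max_right _ _)).trans (le_max_right _ _)
    · have : (2 * Yf D lam0 ^ 2 + 512) * 8 / κ ≤ max lam0 (max 8 (max τ1
        (max ((2 * Yf D lam0 ^ 2 + 512) * 8 / κ)
        (max ((2 * Yf D lam0 ^ 2 + 512) * 4) (Yf D lam0 + κ))))) :=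
        (((le_max_left _ _).trans (le_max_right _ _)).trans (le_max_right _ _)).trans
          (le_max_right _ _)
      rw [div_le_iff₀ hκ] at this
      linarith
    · exact ((((le_max_left _ _).trans (le_max_right _ _)).trans (le_max_right _ _)).trans
        (le_max_right _ _)).trans (le_max_right _ _)
    · exact ((((le_max_right _ _).trans (le_max_right _ _)).trans (le_max_right _ _)).trans
        (le_max_right _ _)).trans (le_max_right _ _)
    · exact hl0.trans_le (le_max_left _ _)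
  set B : ℝ := max (τ0 + (2 * Real.log D + 6)) (max τ1 1) with hBdef
  have hB0 : τ0 + (2 * Real.log D + 6) ≤ B := le_max_left _ _
  have hB1 : τ1 ≤ B := (le_max_left _ _).trans (le_max_right _ _)
  have hB2 : 1 ≤ B := (le_max_right _ _).trans (le_max_right _ _)
  set c : ℝ := q / (2 * lam0) with hc
  have hcpos : 0 < c := by positivity
  set A : ℝ := 2 ^ (q + 1) with hA
  have hA1 : 1 ≤ A := one_le_pow₀ (by norm_num)
  -- no touching: slow growth
  have hslow : ∀ b, B ≤ b → C ≤ L b → L (b + c * L b) ≤ A * L b := by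
    intro b hb hCb
    by_contra hlt
    push Not at hlt
    refine hcon (touch L τ0 hmono q lam0 D κ τ1 hq hlam0 hD hκ b (hB0.trans hb) (hB1.trans hb)
      (hC1.trans hCb) (hC2.trans hCb) (hC3.trans hCb) ?_ (hC5.trans hCb) (1 / 2) (by norm_num)
      (by norm_num) ?_)
    · exact hC4.trans (by gcongr)
    · have e1 : b + q * L b / lam0 * (1 - 1 / 2) = b + c * L b := by
        rw [hc]
        ring
      rw [e1]
      have e2 : L b / (1 / 2) ^ q = 2 ^ q * L b := by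
        rw [one_div, inv_pow, div_inv_eq_mul, mul_comm]
      rw [e2]
      have e3 : A * L b = 2 ^ q * L b + 2 ^ q * L b := by
        rw [hA, pow_succ]
        ring
      have e4 : (1 : ℝ) ≤ 2 ^ q := one_le_pow₀ (by norm_num)
      have e5 : 1 * L b ≤ 2 ^ q * L b := by
        have : 0 ≤ L b := by linarith
        gcongr
      linarith
  -- a starting point
  obtain ⟨b0, hb0, hb0L⟩ : ∃ b0, max B C ≤ b0 ∧ b0 ≤ L b0 := by
    obtain ⟨t, ht, ht2⟩ := (frequently_atTop.1 (hfreq 1)) (max B C)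
    exact ⟨t, ht, by linarith⟩
  have hb0B : B ≤ b0 := (le_max_left _ _).trans hb0
  have hb0C : C ≤ L b0 := ((le_max_right _ _).trans hb0).trans hb0L
  -- the sequence
  set bs : ℕ → ℝ := fun k => Nat.rec b0 (fun _ b => b + c * L b) k with hbs
  have hbs0 : bs 0 = b0 := rfl
  have hbsS : ∀ k, bs (k + 1) = bs k + c * L (bs k) := fun k => rfl
  have hinv : ∀ k, b0 ≤ bs k ∧ C ≤ L (bs k) ∧ b0 + k * (c * C) ≤ bs k := by
    intro k
    induction k with
    | zero => exact ⟨le_rfl, hb0C, by simp [hbs0]⟩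
    | succ k ih =>
      obtain ⟨i1, i2, i3⟩ := ih
      have i4 : c * C ≤ c * L (bs k) := by gcongr
      have i5 : 0 < c * C := by positivity
      have i6 : bs k ≤ bs (k + 1) := by
        rw [hbsS]
        linarith
      refine ⟨i1.trans i6, ?_, ?_⟩
      · refine i2.trans (hmono ?_ ?_ i6)
        · show τ0 ≤ bs k
          linarith
        · show τ0 ≤ bs (k + 1)
          linarith
      · rw [hbsS]
        push_cast
        linarith
  have hstep : ∀ k, L (bs (k + 1)) ≤ A * L (bs k) := fun k => by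
    rw [hbsS]
    exact hslow _ (hb0B.trans (hinv k).1) (hinv k).2.1
  -- linear bound
  have hlin : ∀ t, bs 1 ≤ t → L t ≤ A ^ 2 / c * t := by
    intro t ht
    obtain ⟨N, hN⟩ : ∃ N : ℕ, t < bs (N + 1) := by
      obtain ⟨N, hN⟩ := exists_nat_gt ((t - b0) / (c * C))
      have i5 : 0 < c * C := by positivity
      rw [div_lt_iff₀ i5] at hN
      refine ⟨N, ?_⟩
      have := (hinv (N + 1)).2.2
      push_cast at this
      nlinarith
    classical
    have hex : ∃ N : ℕ, t < bs (N + 1) := ⟨N, hN⟩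
    set k := Nat.find hex with hk
    have hk1 : t < bs (k + 1) := Nat.find_spec hex
    have hk0 : k ≠ 0 := by
      intro h0
      rw [h0] at hk1
      exact absurd ht (not_le.2 hk1)
    obtain ⟨m, hm⟩ := Nat.exists_eq_succ_of_ne_zero hk0
    have hk2 : bs k ≤ t := by
      have := Nat.find_min hex (m := m) (by rw [← hk]; omega)
      push Not at this
      rw [hm]
      exact this
    have j1 : L t ≤ L (bs (k + 1)) := by
      refine hmono ?_ ?_ hk1.le
      · show τ0 ≤ t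
        have := (hinv k).1
        linarith
      · show τ0 ≤ bs (k + 1)
        have := (hinv (k + 1)).1
        linarith
    have j2 := hstep k
    have j3 := hstep m
    have j4 : bs k = bs m + c * L (bs m) := by rw [hm]
    have j5 : 0 < b0 := by linarith
    have j6 : c * L (bs m) ≤ t := by
      have := (hinv m).1
      linarith
    have j7 : L (bs m) ≤ t / c := by
      rw [le_div_iff₀ hcpos]
      linarith
    rw [show m + 1 = k from hm.symm] at j3
    calc L t ≤ L (bs (k + 1)) := j1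
      _ ≤ A * L (bs k) := j2
      _ ≤ A * (A * L (bs m)) := by gcongr
      _ ≤ A * (A * (t / c)) := by gcongr
      _ = A ^ 2 / c * t := by ring
  obtain ⟨t, ht, ht2⟩ := (frequently_atTop.1 (hfreq (A ^ 2 / c + 1))) (bs 1)
  have := hlin t ht
  have h6 : 0 < t := by
    have h7 := (hinv 1).1
    linarith
  nlinarith

end Pool.Agent.W214.CI
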